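import Mathlib
import Pool.Agent.Helper99.SZ.Stmts4

/-! Module QOV: the valuations of `y / τ y - 1` in a quadratic field. -/

set_option autoImplicit false

namespace Pool.Helper99.SZ

open NumberField

section

variable {K : Type} [Field K] [NumberField K] {Q : Ideal (𝓞 K)} {q : ℕ}

omit [NumberField K] in
theorem qov_mulc (q : ℕ) (k : ℤ) :
    (((q : 𝓞 K) * (k : 𝓞 K) : 𝓞 K) : K) = (q : K) * (k : K) := by
  have h := map_mul (algebraMap (𝓞 K) K) (q : 𝓞 K) (k : 𝓞 K)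
  rw [map_natCast, map_intCast] at h
  exact h

theorem qov_int1 (hDVB : ST_DVB) (hp : Q.IsPrime) (hb : Q ≠ ⊥) (hq : q.Prime)
    (hqQ : ((q : ℕ) : 𝓞 K) ∈ Q) (n : ℤ) : Dv Q 1 (n : K) ↔ (q : ℤ) ∣ n := by
  obtain ⟨-, -, -, -, -, -, -, -, h9⟩ := hDVB K Q hp hb
  constructor
  · intro h
    have h1 : Dv Q 1 (((n : 𝓞 K)) : K) := by
      have h2 : (((n : 𝓞 K)) : K) = (n : K) := map_intCast (algebraMap (𝓞 K) K) n
      rw [h2]
      exact h
    have h2 := h9 1 _ h1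
    rw [pow_one] at h2
    by_contra hnd
    have hqi : Prime (q : ℤ) := Nat.prime_iff_prime_int.1 hq
    have hcop : IsCoprime (q : ℤ) n := (Prime.coprime_iff_not_dvd hqi).2 hnd
    obtain ⟨u, w, huw⟩ := hcop
    have h3 : ((u * (q : ℤ) + w * n : ℤ) : 𝓞 K) ∈ Q := by
      push_cast
      exact Q.add_mem (Q.mul_mem_left _ hqQ) (Q.mul_mem_left _ h2)
    rw [huw, Int.cast_one] at h3
    exact hp.ne_top ((Ideal.eq_top_iff_one Q).2 h3)
  · rintro ⟨k, rfl⟩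
    refine ⟨((q : 𝓞 K)) * (k : 𝓞 K), 1, ?_, ?_, ?_⟩
    · intro h
      exact hp.ne_top ((Ideal.eq_top_iff_one Q).2 h)
    · rw [pow_one]
      exact Q.mul_mem_right _ hqQ
    · have h2 : (((1 : 𝓞 K)) : K) = 1 := map_one (algebraMap (𝓞 K) K)
      rw [h2, mul_one, qov_mulc]
      push_cast
      ring

theorem qov_int0 (hDVB : ST_DVB) (hp : Q.IsPrime) (hb : Q ≠ ⊥) (n : ℤ) : Dv Q 0 (n : K) := by
  obtain ⟨h1, -⟩ := hDVB K Q hp hb
  have h2 : (((n : 𝓞 K)) : K) = (n : K) := map_intCast (algebraMap (𝓞 K) K) n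
  rw [← h2]
  exact h1 _

/-- integers modulo `q` -/
theorem qov_cong (hq : q.Prime) (a b : ℤ) (hb : ¬ (q : ℤ) ∣ b) : ∃ c : ℕ, (q : ℤ) ∣ a - c * b := by
  have hqi : Prime (q : ℤ) := Nat.prime_iff_prime_int.1 hq
  have hcop : IsCoprime (q : ℤ) b := (Prime.coprime_iff_not_dvd hqi).2 hb
  obtain ⟨u, w, huw⟩ := hcop
  have hq0 : (q : ℤ) ≠ 0 := by exact_mod_cast hq.ne_zero
  refine ⟨((a * w) % q).toNat, ?_⟩
  have h1 : ((((a * w) % q).toNat : ℕ) : ℤ) = (a * w) % q :=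
    Int.toNat_of_nonneg (Int.emod_nonneg _ hq0)
  rw [h1]
  have h2 : (q : ℤ) ∣ a * w - (a * w) % q := Int.dvd_self_sub_emod
  have h3 : a - (a * w) % q * b = (a * w - (a * w) % q) * b + a * u * q := by
    linear_combination (-a) * huw
  rw [h3]
  exact dvd_add (Dvd.dvd.mul_right h2 _) (Dvd.intro_left _ rfl)

theorem qov_rat (hDVB : ST_DVB) (hp : Q.IsPrime) (hb : Q ≠ ⊥) (hq : q.Prime)
    (hqQ : ((q : ℕ) : 𝓞 K) ∈ Q) (r : ℚ) (hr : Dv Q 0 (algebraMap ℚ K r)) :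
    ¬ (q : ℤ) ∣ (r.den : ℤ) := by
  intro hd
  obtain ⟨-, -, -, -, h5, -, -, -, -⟩ := hDVB K Q hp hb
  have h1 := (qov_int1 hDVB hp hb hq hqQ (r.den : ℤ)).2 hd
  have h2 := h5 1 0 _ _ h1 hr
  have h3 : ((r.den : ℤ) : K) * algebraMap ℚ K r = ((r.num : ℤ) : K) := by
    have h4 : (((r.den : ℤ) : ℚ)) * r = (r.num : ℚ) := by
      push_cast
      rw [mul_comm]
      exact Rat.mul_den_eq_num r
    have h5 := congrArg (algebraMap ℚ K) h4
    rw [map_mul, map_intCast, map_intCast] at h5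
    exact h5
  rw [h3, add_zero] at h2
  have h4 := (qov_int1 hDVB hp hb hq hqQ r.num).1 h2
  have h6 : (q : ℤ) ∣ ((r.den : ℕ) : ℤ) := hd
  have h7 : q ∣ r.den := Int.natCast_dvd_natCast.1 h6
  have h8 : q ∣ r.num.natAbs := Int.natCast_dvd.1 h4
  have h9 := r.reduced
  have h10 : q ∣ Nat.gcd r.num.natAbs r.den := Nat.dvd_gcd h8 h7
  rw [Nat.Coprime] at h9
  rw [h9] at h10
  exact hq.one_lt.ne' (Nat.dvd_one.1 h10)

/-- rational numbers which are integral at `Q` are congruent to natural numbers -/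
theorem qov_ratc (hDVB : ST_DVB) (hp : Q.IsPrime) (hb : Q ≠ ⊥) (hq : q.Prime)
    (hqQ : ((q : ℕ) : 𝓞 K) ∈ Q) (r : ℚ) (hr : Dv Q 0 (algebraMap ℚ K r)) :
    ∃ c : ℕ, Dv Q 1 (algebraMap ℚ K r - (c : K)) := by
  have hnd := qov_rat hDVB hp hb hq hqQ r hr
  obtain ⟨c, k, hk⟩ := qov_cong hq r.num (r.den : ℤ) hnd
  refine ⟨c, ((q : 𝓞 K)) * (k : 𝓞 K), ((r.den : ℤ) : 𝓞 K), ?_, ?_, ?_⟩
  · intro h
    apply hnd
    rw [← qov_int1 (K := K) hDVB hp hb hq hqQ]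
    refine ⟨((r.den : ℤ) : 𝓞 K), 1, ?_, ?_, ?_⟩
    · intro h'
      exact hp.ne_top ((Ideal.eq_top_iff_one Q).2 h')
    · rw [pow_one]
      exact h
    · have h2 : ((((r.den : ℤ) : 𝓞 K)) : K) = ((r.den : ℤ) : K) :=
        map_intCast (algebraMap (𝓞 K) K) _
      have h4 : (((1 : 𝓞 K)) : K) = 1 := map_one (algebraMap (𝓞 K) K)
      rw [h2, h4, mul_one]
  · rw [pow_one]
    exact Q.mul_mem_right _ hqQ
  · have h3 : algebraMap ℚ K r * ((r.den : ℤ) : K) = ((r.num : ℤ) : K) := by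
      have h4 : r * (((r.den : ℤ) : ℚ)) = (r.num : ℚ) := by
        push_cast
        exact Rat.mul_den_eq_num r
      have h5 := congrArg (algebraMap ℚ K) h4
      rw [map_mul, map_intCast, map_intCast] at h5
      exact h5
    have h2 : ((((r.den : ℤ) : 𝓞 K)) : K) = ((r.den : ℤ) : K) :=
      map_intCast (algebraMap (𝓞 K) K) _
    have h6 : (((q : 𝓞 K) * (k : 𝓞 K) : 𝓞 K) : K) = (q : K) * (k : K) := qov_mulc q k
    rw [h2, h6, sub_mul, h3]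
    have h7 := congrArg (fun z : ℤ => (z : K)) hk
    push_cast at h7
    push_cast
    exact h7

theorem qov_nmem (hDVB : ST_DVB) (hp : Q.IsPrime) (hb : Q ≠ ⊥) (hq : q.Prime)
    (hqQ : ((q : ℕ) : 𝓞 K) ∈ Q) (d : ℤ) (hd : ¬ (q : ℤ) ∣ d) : ((d : ℤ) : 𝓞 K) ∉ Q := by
  intro h
  apply hd
  rw [← qov_int1 (K := K) hDVB hp hb hq hqQ]
  refine ⟨((d : ℤ) : 𝓞 K), 1, ?_, ?_, ?_⟩
  · intro h'
    exact hp.ne_top ((Ideal.eq_top_iff_one Q).2 h')
  · rw [pow_one]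
    exact h
  · have h2 : ((((d : ℤ) : 𝓞 K)) : K) = ((d : ℤ) : K) :=
      map_intCast (algebraMap (𝓞 K) K) _
    have h4 : (((1 : 𝓞 K)) : K) = 1 := map_one (algebraMap (𝓞 K) K)
    rw [h2, h4, mul_one]

theorem qov_cancel (hp : Q.IsPrime) (t : ℕ) (d : ℤ) (hd : ((d : ℤ) : 𝓞 K) ∉ Q) (z : K)
    (h : Dv Q t ((d : K) * z)) : Dv Q t z := by
  obtain ⟨a, b, hb, ha, hab⟩ := h
  refine ⟨a, ((d : ℤ) : 𝓞 K) * b, ?_, ha, ?_⟩
  · intro h
    rcases hp.mem_or_mem h with h | h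
    · exact hd h
    · exact hb h
  · have h1 : ((((d : ℤ) : 𝓞 K) * b : 𝓞 K) : K) = ((d : ℤ) : K) * (b : K) := by
      have h := map_mul (algebraMap (𝓞 K) K) ((d : ℤ) : 𝓞 K) b
      rw [map_intCast] at h
      exact h
    rw [h1, ← hab]
    ring

theorem qov_zero (hp : Q.IsPrime) (t : ℕ) : Dv Q t (0 : K) := by
  refine ⟨0, 1, ?_, (Q ^ t).zero_mem, ?_⟩
  · intro h'
    exact hp.ne_top ((Ideal.eq_top_iff_one Q).2 h')
  · rw [zero_mul]
    exact (map_zero (algebraMap (𝓞 K) K)).symm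

theorem qov_val1 {vQ : Kˣ → ℤ} (hv : IsVal Q vQ) : vQ 1 = 0 := by
  have := hv.mul 1 1
  rw [one_mul] at this
  omega

theorem qov_vinv {vQ : Kˣ → ℤ} (hv : IsVal Q vQ) (u : Kˣ) : vQ u⁻¹ = - vQ u := by
  have h := hv.mul u u⁻¹
  rw [mul_inv_cancel, qov_val1 hv] at h
  omega

/-- `τ y` is congruent to a natural number -/
theorem qov_apx (hDVB : ST_DVB) (hp : Q.IsPrime) (hb : Q ≠ ⊥) (hq : q.Prime)
    (hqQ : ((q : ℕ) : 𝓞 K) ∈ Q) (τ : K →+* K) (hinv : ∀ x, τ (τ x) = x)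
    (hfix : ∀ x, τ x = x → ∃ q : ℚ, x = algebraMap ℚ K q) {vQ : Kˣ → ℤ} (hv : IsVal Q vQ)
    (y : K) (hy : Dv Q 0 y) (hty : Dv Q 0 (τ y)) (hd : Dv Q 1 (y - τ y)) :
    ∃ c : ℕ, Dv Q 1 (τ y - (c : K)) := by
  obtain ⟨h1, h2, h3, h4, h5, h6, h7, h8, h9⟩ := hDVB K Q hp hb
  by_cases hq2 : q = 2
  · obtain ⟨r, hr⟩ := hfix (y * τ y) (by rw [map_mul, hinv, mul_comm])
    have hr0 : Dv Q 0 (algebraMap ℚ K r) := by
      rw [← hr]
      exact h5 0 0 _ _ hy hty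
    obtain ⟨c, hc⟩ := qov_ratc hDVB hp hb hq hqQ r hr0
    refine ⟨c, ?_⟩
    rw [← hr] at hc
    have e1 : Dv Q 1 (((2 * c : ℤ) : K) * τ y) := by
      have := h5 1 0 _ _ ((qov_int1 hDVB hp hb hq hqQ (2 * c : ℤ)).2 (by
        rw [hq2]
        exact Dvd.intro _ rfl)) hty
      rwa [add_zero] at this
    have e2 : Dv Q 1 (((c * (c + 1) : ℤ)) : K) := by
      rw [qov_int1 hDVB hp hb hq hqQ, hq2]
      exact (Int.even_mul_succ_self (c : ℤ)).two_dvd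
    have e3 : Dv Q 1 (τ y * (y - τ y)) := by
      have := h5 0 1 _ _ hty hd
      rwa [zero_add] at this
    have e4 : Dv Q 1 ((τ y - (c : K)) * (τ y - (c : K))) := by
      have e5 : (τ y - (c : K)) * (τ y - (c : K)) =
          ((y * τ y - (c : K)) + (((c * (c + 1) : ℤ)) : K)) +
          (-(τ y * (y - τ y)) + -(((2 * c : ℤ) : K) * τ y)) := by
        push_cast
        ring
      rw [e5]
      exact h3 1 _ _ (h3 1 _ _ hc e2) (h3 1 _ _ (h4 1 _ e3) (h4 1 _ e1))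
    by_cases hz : τ y - (c : K) = 0
    · rw [hz]
      exact qov_zero hp 1
    · have e6 : ((Units.mk0 _ hz * Units.mk0 _ hz : Kˣ) : K) =
        (τ y - (c : K)) * (τ y - (c : K)) := rfl
      rw [← e6, hv.dv, hv.mul] at e4
      have e7 : ((Units.mk0 _ hz : Kˣ) : K) = τ y - (c : K) := rfl
      rw [← e7, hv.dv]
      push_cast at e4 ⊢
      omega
  · obtain ⟨r, hr⟩ := hfix (y + τ y) (by rw [map_add, hinv, add_comm])
    have hr0 : Dv Q 0 (algebraMap ℚ K r) := by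
      rw [← hr]
      exact h3 0 _ _ hy hty
    obtain ⟨ct, hct⟩ := qov_ratc hDVB hp hb hq hqQ r hr0
    rw [← hr] at hct
    have h2q : ¬ (q : ℤ) ∣ 2 := by
      intro h
      have h' : q ∣ 2 := by exact_mod_cast h
      exact hq2 ((Nat.prime_dvd_prime_iff_eq hq Nat.prime_two).1 h')
    obtain ⟨c, hc⟩ := qov_cong hq (ct : ℤ) 2 h2q
    refine ⟨c, ?_⟩
    apply qov_cancel hp 1 2 (qov_nmem hDVB hp hb hq hqQ 2 h2q)
    have e2 : Dv Q 1 (((ct - c * 2 : ℤ)) : K) := (qov_int1 hDVB hp hb hq hqQ _).2 hc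
    have e5 : ((2 : ℤ) : K) * (τ y - (c : K)) =
        ((y + τ y - (ct : K)) + (((ct - c * 2 : ℤ)) : K)) + -(y - τ y) := by
      push_cast
      ring
    rw [e5]
    exact h3 1 _ _ (h3 1 _ _ hct e2) (h4 1 _ hd)

/-- ramification index -/
theorem qov_E (hDVB : ST_DVB) (hp : Q.IsPrime) (hb : Q ≠ ⊥) (hq : q.Prime)
    (hqQ : ((q : ℕ) : 𝓞 K) ∈ Q) (hdeg : Module.finrank ℚ K = 2) {vQ : Kˣ → ℤ}
    (hv : IsVal Q vQ) (x : Kˣ) (hx : (x : K) = (q : K)) : 1 ≤ vQ x ∧ vQ x ≤ 2 := by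
  constructor
  · have h1 : Dv Q 1 (((q : ℤ)) : K) := (qov_int1 hDVB hp hb hq hqQ _).2 dvd_rfl
    have h2 : (((q : ℤ)) : K) = (x : K) := by rw [hx]; push_cast; rfl
    rw [h2, hv.dv] at h1
    exact_mod_cast h1
  · by_contra hcon
    push Not at hcon
    have h1 : Dv Q 3 (x : K) := by
      rw [hv.dv]
      push_cast
      omega
    obtain ⟨-, -, -, -, -, -, -, -, h9⟩ := hDVB K Q hp hb
    have h2 : (((q : ℕ) : 𝓞 K) : K) = (x : K) := by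
      rw [hx]
      exact map_natCast (algebraMap (𝓞 K) K) q
    rw [← h2] at h1
    have h3 := h9 3 _ h1
    have h4 : Ideal.absNorm (Ideal.span {((q : ℕ) : 𝓞 K)}) = q ^ 2 := by
      rw [Ideal.absNorm_span_natCast, RingOfIntegers.rank, hdeg]
    have h5 : Ideal.absNorm (Q ^ 3) ∣ q ^ 2 := by
      rw [← h4]
      exact Ideal.absNorm_dvd_absNorm_of_le ((Ideal.span_singleton_le_iff_mem _).2 h3)
    rw [map_pow] at h5
    have h6 : Ideal.absNorm Q ∣ q ^ 2 := (dvd_pow_self _ (by norm_num)).trans h5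
    obtain ⟨k, hk, hk2⟩ := (Nat.dvd_prime_pow hq).1 h6
    rw [hk2, ← pow_mul] at h5
    have h7 := (Nat.pow_dvd_pow_iff_le_right hq.one_lt).1 h5
    have h8 : k = 0 := by omega
    rw [h8, pow_zero, Ideal.absNorm_eq_one_iff] at hk2
    exact hp.ne_top hk2

theorem qov_fac (hq : q.Prime) (n : ℤ) (hn : n ≠ 0) :
    ∃ (j : ℕ) (n' : ℤ), ¬ (q : ℤ) ∣ n' ∧ n = (q : ℤ) ^ j * n' := by
  obtain ⟨j, k, hk, hk2⟩ := Nat.exists_eq_pow_mul_and_not_dvd (Int.natAbs_ne_zero.2 hn) q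
    hq.one_lt.ne'
  rcases Int.natAbs_eq n with h | h
  · refine ⟨j, k, ?_, ?_⟩
    · exact_mod_cast hk
    · rw [h, hk2]
      push_cast
      rfl
  · refine ⟨j, -k, ?_, ?_⟩
    · rw [dvd_neg]
      exact_mod_cast hk
    · rw [h, hk2]
      push_cast
      ring

theorem qov_vint (hDVB : ST_DVB) (hp : Q.IsPrime) (hb : Q ≠ ⊥) (hq : q.Prime)
    (hqQ : ((q : ℕ) : 𝓞 K) ∈ Q) {vQ : Kˣ → ℤ} (hv : IsVal Q vQ) (n : ℤ)
    (hn : ¬ (q : ℤ) ∣ n) (u : Kˣ) (hu : (u : K) = (n : K)) : vQ u = 0 := by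
  have h1 : (0 : ℕ) ≤ vQ u := by
    rw [← hv.dv, hu]
    exact qov_int0 hDVB hp hb n
  have h2 : ¬ ((1 : ℕ) : ℤ) ≤ vQ u := by
    rw [← hv.dv, hu, qov_int1 hDVB hp hb hq hqQ]
    exact hn
  push_cast at h1 h2
  omega

theorem qov_vpow {vQ : Kˣ → ℤ} (hv : IsVal Q vQ) (u : Kˣ) (j : ℕ) :
    vQ (u ^ j) = j * vQ u := by
  induction j with
  | zero => rw [pow_zero, qov_val1 hv]; simp
  | succ j ih => rw [pow_succ, hv.mul, ih]; push_cast; ring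

theorem qov_ty (hDVB : ST_DVB) (hp : Q.IsPrime) (hb : Q ≠ ⊥) (τ : K →+* K) {vQ : Kˣ → ℤ}
    (hv : IsVal Q vQ) (y x : Kˣ) (hy : vQ y = 0) (hx : (x : K) = (y : K) / τ (y : K) - 1)
    (h1 : 1 ≤ vQ x) : ∃ ty : Kˣ, (ty : K) = τ (y : K) ∧ vQ ty = 0 ∧
      Dv Q 1 ((y : K) - τ (y : K)) := by
  obtain ⟨-, -, -, -, h5, h6, -, -, -⟩ := hDVB K Q hp hb
  have hne : τ (y : K) ≠ 0 := (map_ne_zero τ).2 y.ne_zero
  obtain ⟨ty, hty⟩ : ∃ ty : Kˣ, (ty : K) = τ (y : K) := ⟨Units.mk0 _ hne, rfl⟩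
  have hu : ((y * ty⁻¹ : Kˣ) : K) - 1 = (x : K) := by
    rw [hx, Units.val_mul, Units.val_inv_eq_inv_val, hty, div_eq_mul_inv]
  have h2 : Dv Q 1 (((y * ty⁻¹ : Kˣ) : K) - 1) := by
    rw [hu, hv.dv]
    push_cast
    exact h1
  obtain ⟨-, h3, h4⟩ := h6 _ h2
  rw [hv.dv] at h3
  rw [← Units.val_inv_eq_inv_val, hv.dv, qov_vinv hv] at h4
  have h7 : vQ (y * ty⁻¹) = vQ y - vQ ty := by
    rw [hv.mul, qov_vinv hv]
    ring
  push_cast at h3 h4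
  have h8 : vQ ty = 0 := by omega
  refine ⟨ty, hty, h8, ?_⟩
  have h9 : (y : K) - τ (y : K) = (x : K) * (ty : K) := by
    rw [hx, hty]
    field_simp
  rw [h9]
  have := h5 1 0 _ _ ((hv.dv 1 x).2 (by push_cast; exact h1)) ((hv.dv 0 ty).2 (by
    push_cast; omega))
  rwa [add_zero] at this

end

theorem st_QOV (hDVB : ST_DVB) : ST_QOV := by
  intro K _ _ τ β a b m p P 𝔞 hQD q v Q hq hQQ vQ hv
  have hp := hQQ.pr
  have hb := hQQ.bot
  have hqQ := hQQ.pm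
  have hqf := hQD.qf
  have hq0 : (q : K) ≠ 0 := by exact_mod_cast hq.ne_zero
  obtain ⟨qu, hqu⟩ : ∃ u : Kˣ, (u : K) = (q : K) := ⟨Units.mk0 _ hq0, rfl⟩
  obtain ⟨hE1, hE2⟩ := qov_E hDVB hp hb hq hqQ hqf.deg hv qu hqu
  obtain ⟨E, hE⟩ : ∃ E : ℕ, vQ qu = E := ⟨(vQ qu).toNat, by omega⟩
  refine ⟨E, by omega, by omega, ?_, ?_⟩
  · intro x hx
    have : x = qu := Units.ext (by rw [hx, hqu])
    rw [this, hE]
  intro y y' x x' hy hy' hx hx' h1 h2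
  obtain ⟨ty, hty, hty0, hd⟩ := qov_ty hDVB hp hb τ hv y x hy hx (h1.trans h2)
  obtain ⟨ty', hty', hty0', hd'⟩ := qov_ty hDVB hp hb τ hv y' x' hy' hx' h1
  have hne' : (y' : K) - τ (y' : K) ≠ 0 := by
    intro h
    apply x'.ne_zero
    rw [hx', sub_eq_zero]
    have h3 : τ (y' : K) = (y' : K) := (sub_eq_zero.1 h).symm
    rw [h3, div_self y'.ne_zero]
  have hne : (y : K) - τ (y : K) ≠ 0 := by
    intro h
    apply x.ne_zero
    rw [hx, sub_eq_zero]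
    have h3 : τ (y : K) = (y : K) := (sub_eq_zero.1 h).symm
    rw [h3, div_self y.ne_zero]
  obtain ⟨ρ, hρ⟩ := hqf.fix (((y : K) - τ (y : K)) / ((y' : K) - τ (y' : K))) (by
    rw [map_div₀, map_sub, map_sub, hqf.inv, hqf.inv, ← neg_sub (y : K), ← neg_sub (y' : K),
      neg_div_neg_eq])
  have hr0 : algebraMap ℚ K ρ ≠ 0 := by
    rw [← hρ]
    exact div_ne_zero hne hne'
  have hρ0 : ρ ≠ 0 := by
    intro h
    exact hr0 (by rw [h, map_zero])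
  obtain ⟨ru, hru⟩ : ∃ u : Kˣ, (u : K) = algebraMap ℚ K ρ := ⟨Units.mk0 _ hr0, rfl⟩
  have hxx : x = ru * (ty' * ty⁻¹) * x' := by
    apply Units.ext
    rw [Units.val_mul, Units.val_mul, Units.val_mul, Units.val_inv_eq_inv_val, hru, hty, hty',
      hx, hx', ← hρ]
    have e1 : τ (y : K) ≠ 0 := (map_ne_zero τ).2 y.ne_zero
    have e2 : τ (y' : K) ≠ 0 := (map_ne_zero τ).2 y'.ne_zero
    field_simp
  have hvr : vQ ru = vQ x - vQ x' := by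
    rw [hxx, hv.mul, hv.mul, hv.mul, qov_vinv hv]
    omega
  have hdr : Dv Q 0 (algebraMap ℚ K ρ) := by
    rw [← hru, hv.dv]
    push_cast
    omega
  have hden := qov_rat hDVB hp hb hq hqQ ρ hdr
  have hnum : ρ.num ≠ 0 := Rat.num_ne_zero.2 hρ0
  obtain ⟨j, n', hn', hj⟩ := qov_fac hq ρ.num hnum
  have hden0 : ((ρ.den : ℤ) : K) ≠ 0 := by
    have : (ρ.den : ℤ) ≠ 0 := by exact_mod_cast ρ.den_nz
    exact_mod_cast this
  have hn0 : (n' : K) ≠ 0 := by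
    have : n' ≠ 0 := by
      rintro rfl
      exact hn' (dvd_zero _)
    exact_mod_cast this
  obtain ⟨du, hdu⟩ : ∃ u : Kˣ, (u : K) = ((ρ.den : ℤ) : K) := ⟨Units.mk0 _ hden0, rfl⟩
  obtain ⟨nu, hnu⟩ : ∃ u : Kˣ, (u : K) = (n' : K) := ⟨Units.mk0 _ hn0, rfl⟩
  have hvd := qov_vint hDVB hp hb hq hqQ hv _ hden du hdu
  have hvn := qov_vint hDVB hp hb hq hqQ hv _ hn' nu hnu
  have hrel : algebraMap ℚ K ρ * ((ρ.den : ℤ) : K) = (q : K) ^ j * (n' : K) := by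
    have h4 : ρ * (((ρ.den : ℤ) : ℚ)) = (((q : ℤ) ^ j * n' : ℤ) : ℚ) := by
      rw [← hj]
      push_cast
      exact Rat.mul_den_eq_num ρ
    have h5 := congrArg (algebraMap ℚ K) h4
    rw [map_mul, map_intCast, map_intCast] at h5
    rw [h5]
    push_cast
    rfl
  have hrelu : ru * du = qu ^ j * nu := by
    apply Units.ext
    rw [Units.val_mul, Units.val_mul, Units.val_pow_eq_pow_val, hru, hdu, hqu, hnu]
    exact hrel
  have hvj : vQ x = vQ x' + j * E := by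
    have h3 := congrArg vQ hrelu
    rw [hv.mul, hv.mul, qov_vpow hv, hvd, hvn, hE] at h3
    omega
  have hy0 : Dv Q 0 (y : K) := (hv.dv 0 y).2 (by push_cast; omega)
  have hy0' : Dv Q 0 (y' : K) := (hv.dv 0 y').2 (by push_cast; omega)
  have ht0 : Dv Q 0 (τ (y : K)) := by
    rw [← hty]
    exact (hv.dv 0 ty).2 (by push_cast; omega)
  have ht0' : Dv Q 0 (τ (y' : K)) := by
    rw [← hty']
    exact (hv.dv 0 ty').2 (by push_cast; omega)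
  obtain ⟨c, hc⟩ := qov_apx hDVB hp hb hq hqQ τ hqf.inv hqf.fix hv _ hy0 ht0 hd
  obtain ⟨c', hc'⟩ := qov_apx hDVB hp hb hq hqQ τ hqf.inv hqf.fix hv _ hy0' ht0' hd'
  obtain ⟨g1, g2, g3, g4, g5, g6, g7, g8, g9⟩ := hDVB K Q hp hb
  have hcq : ¬ (q : ℤ) ∣ (c : ℤ) := by
    intro h
    have e1 := (qov_int1 (K := K) hDVB hp hb hq hqQ (c : ℤ)).2 h
    have e2 := g3 1 _ _ hc e1
    have e3 : τ (y : K) - (c : K) + ((c : ℤ) : K) = (ty : K) := by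
      rw [hty]
      push_cast
      ring
    rw [e3, hv.dv, hty0] at e2
    exact absurd e2 (by norm_num)
  have hqi : Prime (q : ℤ) := Nat.prime_iff_prime_int.1 hq
  obtain ⟨c0, hc0⟩ := qov_cong hq (n' * c') ((ρ.den : ℤ) * c) (by
    intro h
    rcases hqi.dvd_or_dvd h with h | h
    · exact hden h
    · exact hcq h)
  refine ⟨j, c0, hvj, ?_⟩
  have e1 : (x : K) - ((c0 * q ^ j : ℕ) : K) * (x' : K) =
      ((qu ^ j * x' : Kˣ) : K) * (((du * ty)⁻¹ : Kˣ) : K) *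
      (((n' : K) * (τ (y' : K) - (c' : K)) +
        -((((c0 : ℤ) * (ρ.den : ℤ) : ℤ) : K) * (τ (y : K) - (c : K)))) +
        (((n' * c' - c0 * ((ρ.den : ℤ) * c) : ℤ)) : K)) := by
    have e2 : (x : K) = algebraMap ℚ K ρ * (τ (y' : K) * (τ (y : K))⁻¹) * (x' : K) := by
      have e3 := congrArg (fun u : Kˣ => (u : K)) hxx
      simp only [Units.val_mul, Units.val_inv_eq_inv_val, hru, hty, hty'] at e3
      exact e3
    have e4 : algebraMap ℚ K ρ = (q : K) ^ j * (n' : K) * (((ρ.den : ℤ) : K))⁻¹ := by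
      rw [← hrel]
      field_simp
    have e5 : τ (y : K) ≠ 0 := (map_ne_zero τ).2 y.ne_zero
    rw [e2, e4, Units.val_mul, Units.val_pow_eq_pow_val, Units.val_inv_eq_inv_val,
      Units.val_mul, hqu, hdu, hty]
    have hden0' : ((ρ.den : ℕ) : K) ≠ 0 := by
      have := hden0
      push_cast at this
      exact this
    push_cast
    field_simp
    ring
  rw [e1]
  have f1 : Dv Q (vQ x).toNat ((qu ^ j * x' : Kˣ) : K) := by
    rw [hv.dv, hv.mul, qov_vpow hv, hE]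
    omega
  have f2 : Dv Q 0 (((du * ty)⁻¹ : Kˣ) : K) := by
    rw [hv.dv, qov_vinv hv, hv.mul]
    push_cast
    omega
  have f3 := g5 _ _ _ _ f1 f2
  rw [add_zero] at f3
  refine g5 _ 1 _ _ f3 ?_
  have k1 : Dv Q 1 ((n' : K) * (τ (y' : K) - (c' : K))) := by
    have := g5 0 1 _ _ (qov_int0 hDVB hp hb n') hc'
    rwa [zero_add] at this
  have k2 : Dv Q 1 ((((c0 : ℤ) * (ρ.den : ℤ) : ℤ) : K) * (τ (y : K) - (c : K))) := by
    have := g5 0 1 _ _ (qov_int0 hDVB hp hb ((c0 : ℤ) * (ρ.den : ℤ))) hc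
    rwa [zero_add] at this
  exact g3 1 _ _ (g3 1 _ _ k1 (g4 1 _ k2)) ((qov_int1 hDVB hp hb hq hqQ _).2 hc0)

end Pool.Helper99.SZ
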